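import Mathlib
import Pool.Agent.LNDQ.Every
import Pool.Agent.MIY.Miy

set_option autoImplicit false

open MvPolynomial

namespace Pool.Agent.Results.MP_821812_ag.AdaptedBasis

/-- FULL Q1. Let `D` be a nonzero locally nilpotent derivation of `B = k[x, y, z]`, `k` a field of characteristic
zero, and `A` its kernel. Then `B` has a basis over `A` consisting of elements `Q n` of `D`-degree `n`. -/
theorem result (k : Type) [Field k] [CharZero k]
    (D : Derivation k (MvPolynomial (Fin 3) k) (MvPolynomial (Fin 3) k)) (hD : D ≠ 0)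
    (hln : ∀ b : MvPolynomial (Fin 3) k, ∃ m : ℕ, (⇑D)^[m] b = 0) :
    ∃ Q : ℕ → MvPolynomial (Fin 3) k,
      (∀ n, (⇑D)^[n] (Q n) ≠ 0 ∧ (⇑D)^[n + 1] (Q n) = 0) ∧
      ∀ b : MvPolynomial (Fin 3) k, ∃! c : ℕ →₀ MvPolynomial (Fin 3) k,
        (∀ n, D (c n) = 0) ∧ b = c.sum fun n a => a * Q n :=
  LNDQ.every_q1 (fun _ _ _ _ D hD hln => by
    obtain ⟨f, g, -, h⟩ := MIY.miy_closed D hD hln
    exact ⟨f, g, h⟩) k D hD hln

end Pool.Agent.Results.MP_821812_ag.AdaptedBasis
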